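import Pool.Agent.Helper23_LAP.Stmts

/-! # LAP, module FAR: additivity for distant sets -/

set_option autoImplicit false

namespace Pool.Agent.LAP.H94

open Pool.Agent.LAP

open scoped Classical

theorem lp_union {α β : Type} [Fintype α] (Q Q' : Finset (α ⊕ β)) :
    lp (Q ∪ Q') = lp Q ∪ lp Q' := by
  ext x
  simp only [lp, Finset.mem_filter, Finset.mem_univ, true_and, Finset.mem_union]

theorem rp_union {α β : Type} [Fintype β] (Q Q' : Finset (α ⊕ β)) :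
    rp (Q ∪ Q') = rp Q ∪ rp Q' := by
  ext x
  simp only [rp, Finset.mem_filter, Finset.mem_univ, true_and, Finset.mem_union]

/-- Threshold of a union of two sets, only one of which is met. -/
theorem card_thr {γ : Type} (O P P' : Finset γ) (t : ℕ)
    (h : ∀ y ∈ O, ∀ y' ∈ O, y ∈ P → y' ∈ P' → False) (ht : 1 ≤ t) :
    t ≤ (O ∩ (P ∪ P')).card ↔ t ≤ (O ∩ P).card ∨ t ≤ (O ∩ P').card := by
  by_cases h1 : (O ∩ P) = ∅
  · have h2 : O ∩ (P ∪ P') = O ∩ P' := by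
      rw [Finset.inter_union_distrib_left, h1, Finset.empty_union]
    rw [h2, h1, Finset.card_empty]
    constructor
    · exact Or.inr
    · rintro (h3 | h3)
      · omega
      · exact h3
  · obtain ⟨y, hy⟩ := Finset.nonempty_iff_ne_empty.mpr h1
    rw [Finset.mem_inter] at hy
    have h3 : O ∩ P' = ∅ := by
      rw [Finset.eq_empty_iff_forall_notMem]
      intro y' hy'
      rw [Finset.mem_inter] at hy'
      exact h y hy.1 y' hy'.1 hy.2 hy'.2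
    have h2 : O ∩ (P ∪ P') = O ∩ P := by
      rw [Finset.inter_union_distrib_left, h3, Finset.union_empty]
    rw [h2, h3, Finset.card_empty]
    constructor
    · exact Or.inl
    · rintro (h4 | h4)
      · exact h4
      · omega

theorem exists_of_thr {γ : Type} {O P : Finset γ} {t : ℕ} (ht : 1 ≤ t) (h : t ≤ (O ∩ P).card) :
    ∃ y ∈ O, y ∈ P := by
  have h1 : (O ∩ P).Nonempty := by
    rw [← Finset.card_pos]
    omega
  obtain ⟨y, hy⟩ := h1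
  rw [Finset.mem_inter] at hy
  exact ⟨y, hy.1, hy.2⟩

/-- FAR. -/
theorem far : FARStmt := by
  intro α β _ _ E R X Y L D Q Q' hL hRE hfar
  have ht : 1 ≤ L ^ 2 := Nat.one_le_pow _ _ hL
  simp only [cq]
  generalize L ^ 2 = t at ht ⊢
  have mo : ∀ x y, y ∈ out E x ↔ (x, y) ∈ E := by
    intro x y
    simp only [out, Finset.mem_filter, Finset.mem_univ, true_and]
  have mi : ∀ x y, x ∈ inn E y ↔ (x, y) ∈ E := by
    intro x y
    simp only [inn, Finset.mem_filter, Finset.mem_univ, true_and]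
  have ml : ∀ (Z : Finset (α ⊕ β)) x, x ∈ lp Z ↔ Sum.inl x ∈ Z := by
    intro Z x
    simp only [lp, Finset.mem_filter, Finset.mem_univ, true_and]
  have mr : ∀ (Z : Finset (α ⊕ β)) y, y ∈ rp Z ↔ Sum.inr y ∈ Z := by
    intro Z x
    simp only [rp, Finset.mem_filter, Finset.mem_univ, true_and]
  -- distances
  have d1 : ∀ x y y', (x, y) ∈ E → (x, y') ∈ E → Sum.inr y ∈ Q → Sum.inr y' ∈ Q' → False := by
    intro x y y' h1 h2 h3 h4
    exact hfar _ h3 _ h4 ⟨Sum.inl x, Sum.inl x, Or.inr h1, Or.inl rfl, Or.inr h2⟩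
  have d2 : ∀ x x' y, (x, y) ∈ E → (x', y) ∈ E → Sum.inl x ∈ Q → Sum.inl x' ∈ Q' → False := by
    intro x x' y h1 h2 h3 h4
    exact hfar _ h3 _ h4 ⟨Sum.inr y, Sum.inr y, Or.inr h1, Or.inl rfl, Or.inr h2⟩
  have d3 : ∀ x x' y y', (x, y) ∈ E → (x, y') ∈ E → (x', y') ∈ E → Sum.inr y ∈ Q →
      Sum.inl x' ∈ Q' → False := by
    intro x x' y y' h1 h2 h3 h4 h5
    exact hfar _ h4 _ h5 ⟨Sum.inl x, Sum.inr y', Or.inr h1, Or.inr h2, Or.inr h3⟩
  have d4 : ∀ x x' y y', (x, y) ∈ E → (x', y) ∈ E → (x', y') ∈ E → Sum.inl x ∈ Q →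
      Sum.inr y' ∈ Q' → False := by
    intro x x' y y' h1 h2 h3 h4 h5
    exact hfar _ h4 _ h5 ⟨Sum.inr y, Sum.inl x', Or.inr h1, Or.inr h2, Or.inr h3⟩
  set A₁ := clA E t Q with hA₁
  set A₂ := clA E t Q' with hA₂
  set B₁ := clB E t Q with hB₁
  set B₂ := clB E t Q' with hB₂
  have mA : ∀ (Z : Finset (α ⊕ β)) x, x ∈ clA E t Z ↔ t ≤ (out E x ∩ rp Z).card := by
    intro Z x
    simp only [clA, clO, Finset.mem_filter, Finset.mem_univ, true_and]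
  have mB : ∀ (Z : Finset (α ⊕ β)) y, y ∈ clB E t Z ↔ t ≤ (inn E y ∩ lp Z).card := by
    intro Z x
    simp only [clB, clI, Finset.mem_filter, Finset.mem_univ, true_and]
  have eA : ∀ x, x ∈ clA E t (Q ∪ Q') ↔ x ∈ A₁ ∨ x ∈ A₂ := by
    intro x
    rw [hA₁, hA₂, mA, mA, mA, rp_union]
    apply card_thr _ _ _ _ _ ht
    intro y hy y' hy' h1 h2
    exact d1 x y y' ((mo _ _).mp hy) ((mo _ _).mp hy') ((mr _ _).mp h1) ((mr _ _).mp h2)
  have eB : ∀ y, y ∈ clB E t (Q ∪ Q') ↔ y ∈ B₁ ∨ y ∈ B₂ := by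
    intro y
    rw [hB₁, hB₂, mB, mB, mB, lp_union]
    apply card_thr _ _ _ _ _ ht
    intro x hx x' hx' h1 h2
    exact d2 x x' y ((mi _ _).mp hx) ((mi _ _).mp hx') ((ml _ _).mp h1) ((ml _ _).mp h2)
  have wA₁ : ∀ x ∈ A₁, ∃ y, (x, y) ∈ E ∧ Sum.inr y ∈ Q := by
    intro x hx
    rw [hA₁, mA] at hx
    obtain ⟨y, h1, h2⟩ := exists_of_thr ht hx
    exact ⟨y, (mo _ _).mp h1, (mr _ _).mp h2⟩
  have wA₂ : ∀ x ∈ A₂, ∃ y, (x, y) ∈ E ∧ Sum.inr y ∈ Q' := by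
    intro x hx
    rw [hA₂, mA] at hx
    obtain ⟨y, h1, h2⟩ := exists_of_thr ht hx
    exact ⟨y, (mo _ _).mp h1, (mr _ _).mp h2⟩
  have wB₁ : ∀ y ∈ B₁, ∃ x, (x, y) ∈ E ∧ Sum.inl x ∈ Q := by
    intro y hy
    rw [hB₁, mB] at hy
    obtain ⟨x, h1, h2⟩ := exists_of_thr ht hy
    exact ⟨x, (mi _ _).mp h1, (ml _ _).mp h2⟩
  have wB₂ : ∀ y ∈ B₂, ∃ x, (x, y) ∈ E ∧ Sum.inl x ∈ Q' := by
    intro y hy
    rw [hB₂, mB] at hy
    obtain ⟨x, h1, h2⟩ := exists_of_thr ht hy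
    exact ⟨x, (mi _ _).mp h1, (ml _ _).mp h2⟩
  have nA : ∀ x, x ∈ A₁ → x ∈ A₂ → False := by
    intro x h1 h2
    obtain ⟨y, a1, a2⟩ := wA₁ x h1
    obtain ⟨y', b1, b2⟩ := wA₂ x h2
    exact d1 x y y' a1 b1 a2 b2
  have nB : ∀ y, y ∈ B₁ → y ∈ B₂ → False := by
    intro y h1 h2
    obtain ⟨x, a1, a2⟩ := wB₁ y h1
    obtain ⟨x', b1, b2⟩ := wB₂ y h2
    exact d2 x x' y a1 b1 a2 b2
  have n12 : ∀ x y, (x, y) ∈ R → x ∈ A₁ → y ∈ B₂ → False := by
    intro x y h0 h1 h2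
    obtain ⟨y', a1, a2⟩ := wA₁ x h1
    obtain ⟨x', b1, b2⟩ := wB₂ y h2
    exact d3 x x' y' y a1 (hRE h0) b1 a2 b2
  have n21 : ∀ x y, (x, y) ∈ R → x ∈ A₂ → y ∈ B₁ → False := by
    intro x y h0 h1 h2
    obtain ⟨y', a1, a2⟩ := wA₂ x h1
    obtain ⟨x', b1, b2⟩ := wB₁ y h2
    exact d4 x' x y y' b1 (hRE h0) a1 b2 a2
  set A := clA E t (Q ∪ Q') with hA
  set B := clB E t (Q ∪ Q') with hB
  -- arcs
  have u1 : ain R X Y A B = ain R X Y A₁ B₁ ∪ ain R X Y A₂ B₂ := by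
    ext ⟨x, y⟩
    simp only [ain, Finset.mem_union, Finset.mem_filter, eA, eB]
    constructor
    · rintro ⟨h0, ⟨h1, h2⟩, h3, h4 | h4⟩
      · exact Or.inl ⟨h0, ⟨h1, fun h => h2 (Or.inl h)⟩, h3, h4⟩
      · exact Or.inr ⟨h0, ⟨h1, fun h => h2 (Or.inr h)⟩, h3, h4⟩
    · rintro (⟨h0, ⟨h1, h2⟩, h3, h4⟩ | ⟨h0, ⟨h1, h2⟩, h3, h4⟩)
      · refine ⟨h0, ⟨h1, ?_⟩, h3, Or.inl h4⟩
        rintro (h | h)
        · exact h2 h
        · exact n21 x y h0 h h4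
      · refine ⟨h0, ⟨h1, ?_⟩, h3, Or.inr h4⟩
        rintro (h | h)
        · exact n12 x y h0 h h4
        · exact h2 h
  have u2 : aou R X Y A B = aou R X Y A₁ B₁ ∪ aou R X Y A₂ B₂ := by
    ext ⟨x, y⟩
    simp only [aou, Finset.mem_union, Finset.mem_filter, eA, eB]
    constructor
    · rintro ⟨h0, ⟨h1, h2 | h2⟩, h3, h4⟩
      · exact Or.inl ⟨h0, ⟨h1, h2⟩, h3, fun h => h4 (Or.inl h)⟩
      · exact Or.inr ⟨h0, ⟨h1, h2⟩, h3, fun h => h4 (Or.inr h)⟩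
    · rintro (⟨h0, ⟨h1, h2⟩, h3, h4⟩ | ⟨h0, ⟨h1, h2⟩, h3, h4⟩)
      · refine ⟨h0, ⟨h1, Or.inl h2⟩, h3, ?_⟩
        rintro (h | h)
        · exact h4 h
        · exact n12 x y h0 h2 h
      · refine ⟨h0, ⟨h1, Or.inr h2⟩, h3, ?_⟩
        rintro (h | h)
        · exact n21 x y h0 h2 h
        · exact h4 h
  have v1 : Disjoint (ain R X Y A₁ B₁) (ain R X Y A₂ B₂) := by
    rw [Finset.disjoint_left]
    intro a h1 h2
    simp only [ain, Finset.mem_filter] at h1 h2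
    exact nB _ h1.2.2.2 h2.2.2.2
  have v2 : Disjoint (aou R X Y A₁ B₁) (aou R X Y A₂ B₂) := by
    rw [Finset.disjoint_left]
    intro a h1 h2
    simp only [aou, Finset.mem_filter] at h1 h2
    exact nA _ h1.2.1.2 h2.2.1.2
  have c1 : (ain R X Y A B).card = (ain R X Y A₁ B₁).card + (ain R X Y A₂ B₂).card := by
    rw [u1, Finset.card_union_of_disjoint v1]
  have c2 : (aou R X Y A B).card = (aou R X Y A₁ B₁).card + (aou R X Y A₂ B₂).card := by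
    rw [u2, Finset.card_union_of_disjoint v2]
  have c3 : (Y ∩ B).card = (Y ∩ B₁).card + (Y ∩ B₂).card := by
    have h1 : Y ∩ B = (Y ∩ B₁) ∪ (Y ∩ B₂) := by
      ext y
      simp only [Finset.mem_inter, Finset.mem_union, eB]
      tauto
    rw [h1, Finset.card_union_of_disjoint]
    rw [Finset.disjoint_left]
    intro y h2 h3
    exact nB y (Finset.mem_inter.mp h2).2 (Finset.mem_inter.mp h3).2
  have c4 : (X ∩ A).card = (X ∩ A₁).card + (X ∩ A₂).card := by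
    have h1 : X ∩ A = (X ∩ A₁) ∪ (X ∩ A₂) := by
      ext x
      simp only [Finset.mem_inter, Finset.mem_union, eA]
      tauto
    rw [h1, Finset.card_union_of_disjoint]
    rw [Finset.disjoint_left]
    intro x h2 h3
    exact nA x (Finset.mem_inter.mp h2).2 (Finset.mem_inter.mp h3).2
  have c5 : (crs R X Y A B).card = (crs R X Y A₁ B₁).card + (crs R X Y A₂ B₂).card := by
    have h1 : crs R X Y A B = crs R X Y A₁ B₁ ∪ crs R X Y A₂ B₂ := by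
      simp only [crs, u1, u2]
      ext a
      simp only [Finset.mem_union]
      tauto
    rw [h1, Finset.card_union_of_disjoint]
    rw [Finset.disjoint_left]
    rintro ⟨x, y⟩ h2 h3
    simp only [crs, Finset.mem_union, ain, aou, Finset.mem_filter] at h2 h3
    rcases h2 with ⟨h0, _, _, h4⟩ | ⟨h0, ⟨_, h4⟩, _⟩ <;>
      rcases h3 with ⟨_, _, _, h5⟩ | ⟨_, ⟨_, h5⟩, _⟩
    · exact nB _ h4 h5
    · exact n21 _ _ h0 h5 h4
    · exact n12 _ _ h0 h4 h5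
    · exact nA _ h4 h5
  refine ⟨?_, ?_, c3, c4⟩
  · simp only [dsc]
    rw [c1, c2, c3, c4]
    push_cast
    ring
  · rw [c5]
    push_cast
    ring

end Pool.Agent.LAP.H94
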