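import Pool.Agent.Helper23_LAP.Stmts

/-! # LAP, module PAI: one pair of links on every cycle -/

set_option autoImplicit false

namespace Pool.Agent.LAP.H94

open Pool.Agent.LAP Relation

open scoped Classical

/-- In a functional relation a closed walk of a subrelation absorbs everything reachable. -/
theorem tg_of_rtg {V : Type} {r r' : V → V → Prop} (hfun : ∀ a b c, r a b → r a c → b = c)
    (hle : ∀ a b, r' a b → r a b) {v : V} (hv : TransGen r' v v) {w : V}
    (h : ReflTransGen r v w) : TransGen r' w v := by
  induction h with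
  | refl => exact hv
  | tail _ hstep ih =>
    obtain ⟨u, hu, hu2⟩ := TransGen.head'_iff.mp ih
    have e := hfun _ _ _ hstep (hle _ _ hu)
    rw [e]
    exact TransGen.trans_right hu2 hv

theorem step_of_rtg {V : Type} {r r' : V → V → Prop} (hfun : ∀ a b c, r a b → r a c → b = c)
    (hle : ∀ a b, r' a b → r a b) {v : V} (hv : TransGen r' v v) {w w' : V}
    (h : ReflTransGen r v w) (hs : r w w') : r' w w' := by
  obtain ⟨u, hu, _⟩ := TransGen.head'_iff.mp (tg_of_rtg hfun hle hv h)
  rw [hfun _ _ _ hs (hle _ _ hu)]
  exact hu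

/-- PAI. -/
theorem pai : PAIStmt := by
  intro V _ K M hK hKa hM hd hr hone
  set F : Finset (V × V) := K ∪ M with hF
  set r : V → V → Prop := fun a b => (a, b) ∈ F with hrdef
  have hfun : ∀ a b c, r a b → r a c → b = c := by
    intro a b c hab hac
    rw [hrdef] at hab hac
    simp only [hF, Finset.mem_union] at hab hac
    rcases hab with h1 | h1 <;> rcases hac with h2 | h2
    · exact hK.1 _ _ _ h1 h2
    · have d1 : a ∈ dom M := Finset.mem_image_of_mem Prod.fst h2
      have d2 : a ∈ dom K := Finset.mem_image_of_mem Prod.fst h1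
      exact (Finset.disjoint_left.mp hd d1 d2).elim
    · have d1 : a ∈ dom M := Finset.mem_image_of_mem Prod.fst h1
      have d2 : a ∈ dom K := Finset.mem_image_of_mem Prod.fst h2
      exact (Finset.disjoint_left.mp hd d1 d2).elim
    · exact hM.1 _ _ _ h1 h2
  set C : V → Finset V := fun x => Finset.univ.filter fun w => ReflTransGen r x w with hC
  have memC : ∀ x w, w ∈ C x ↔ ReflTransGen r x w := by
    intro x w
    rw [hC]
    simp only [Finset.mem_filter, Finset.mem_univ, true_and]
  have Ceq : ∀ x w, TransGen r x x → w ∈ C x → C w = C x := by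
    intro x w hx hw
    rw [memC] at hw
    have h1 := tg_of_rtg hfun (fun _ _ h => h) hx hw
    ext u
    rw [memC, memC]
    exact ⟨fun h => hw.trans h, fun h => h1.to_reflTransGen.trans h⟩
  have cycC : ∀ x w, TransGen r x x → w ∈ C x → TransGen r w w := by
    intro x w hx hw
    rw [memC] at hw
    exact TransGen.trans_left (tg_of_rtg hfun (fun _ _ h => h) hx hw) hw
  -- two links on every cycle
  have two : ∀ x, TransGen r x x → ∃ p : (V × V) × (V × V), p.1 ∈ M ∧ p.2 ∈ M ∧ p.1 ≠ p.2 ∧
      p.1.1 ∈ C x ∧ p.2.1 ∈ C x := by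
    intro x hx
    have h1 : ∃ l ∈ M, l.1 ∈ C x := by
      by_contra hcon
      push Not at hcon
      apply hKa x
      have h2 : ∀ w, ReflTransGen r x w → w = x ∨ TransGen (fun a b => (a, b) ∈ K) x w := by
        intro w hw
        induction hw with
        | refl => exact Or.inl rfl
        | @tail b c hb hbc ih =>
          right
          have h3 : (b, c) ∈ K := by
            rcases Finset.mem_union.mp hbc with h4 | h4
            · exact h4
            · exact absurd ((memC x b).mpr hb) (hcon _ h4)
          rcases ih with h4 | h4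
          · rw [h4] at h3
            exact TransGen.single h3
          · exact TransGen.tail h4 h3
      obtain ⟨u, hu1, hu2⟩ := TransGen.tail'_iff.mp hx
      have h3 : (u, x) ∈ K := by
        rcases Finset.mem_union.mp hu2 with h4 | h4
        · exact h4
        · exact absurd ((memC x u).mpr hu1) (hcon _ h4)
      rcases h2 u hu1 with h4 | h4
      · rw [h4] at h3
        exact TransGen.single h3
      · exact TransGen.tail h4 h3
    obtain ⟨l, hl, hlC⟩ := h1
    by_contra hcon
    have hcon' : ∀ l' ∈ M, l'.1 ∈ C x → l = l' := by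
      intro l' hl' hl'C
      by_contra hne
      exact hcon ⟨(l, l'), hl, hl', hne, hlC, hl'C⟩
    apply hone l hl
    have key : ∀ u, ReflTransGen r u l.1 → u ∈ C x →
        ReflTransGen (fun u v => (u, v) ∈ K) u l.1 := by
      intro u hu
      induction hu using ReflTransGen.head_induction_on with
      | refl => intro _; exact ReflTransGen.refl
      | @head a b hab _ ih =>
        intro ha
        by_cases hal : a = l.1
        · rw [hal]
        · have hbC : b ∈ C x := by
            rw [memC] at ha ⊢
            exact ha.tail hab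
          have h3 : (a, b) ∈ K := by
            rcases Finset.mem_union.mp hab with h4 | h4
            · exact h4
            · have h5 := hcon' _ h4 ha
              rw [h5] at hal
              exact absurd rfl hal
          exact ReflTransGen.head h3 (ih hbC)
    have hl2 : r l.1 l.2 := Finset.mem_union_right _ hl
    have hl2C : l.2 ∈ C x := by
      rw [memC] at hlC ⊢
      exact hlC.tail hl2
    apply key _ _ hl2C
    have h4 : l.1 ∈ C l.2 := by
      rw [Ceq x l.2 hx hl2C]
      exact hlC
    exact (memC _ _).mp h4
  -- the chosen pairs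
  set good : Finset V → (V × V) × (V × V) → Prop := fun S p => p.1 ∈ M ∧ p.2 ∈ M ∧ p.1 ≠ p.2 ∧
      p.1.1 ∈ S ∧ p.2.1 ∈ S with hgood
  rcases isEmpty_or_nonempty V with hV | ⟨⟨v0⟩⟩
  · exact ⟨fun l => l, fun _ => false, fun l => (hV.false l.1).elim, fun _ v => (hV.false v).elim⟩
  obtain ⟨p, hp⟩ : ∃ p : Finset V → (V × V) × (V × V), ∀ x, TransGen r x x →
      good (C x) (p (C x)) := by
    refine ⟨fun S => if h : ∃ p, good S p then h.choose else ((v0, v0), (v0, v0)), ?_⟩
    intro x hx
    have h1 : ∃ p, good (C x) p := two x hx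
    simp only [dif_pos h1]
    exact h1.choose_spec
  set second : V × V → Prop := fun l => TransGen r l.1 l.1 ∧ l = (p (C l.1)).2 with hsec
  refine ⟨fun l => if second l then (p (C l.1)).1 else l, fun l => decide (second l), ?_, ?_⟩
  · intro l hl l' hl' hne hrep
    simp only at hrep ⊢
    by_cases h1 : second l <;> by_cases h2 : second l'
    · exfalso
      rw [if_pos h1, if_pos h2] at hrep
      obtain ⟨_, _, _, g4, _⟩ := hp l.1 h1.1
      obtain ⟨_, _, _, g4', _⟩ := hp l'.1 h2.1
      have e1 := Ceq l.1 _ h1.1 g4
      have e2 := Ceq l'.1 _ h2.1 g4'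
      have e3 : C l.1 = C l'.1 := by rw [← e1, ← e2, hrep]
      apply hne
      rw [h1.2, h2.2, e3]
    · simp [h1, h2]
    · simp [h1, h2]
    · exfalso
      rw [if_neg h1, if_neg h2] at hrep
      exact hne hrep
  · intro ω v hv
    set ct := cut M (fun l => if second l then (p (C l.1)).1 else l) (fun l => decide (second l)) ω
      with hct
    have hle : ∀ a b, (a, b) ∈ (K ∪ M) \ ct → r a b := fun a b h => (Finset.mem_sdiff.mp h).1
    have hv' : TransGen r v v := TransGen.mono hle _ _ hv
    obtain ⟨g1, g2, g3, g4, g5⟩ := hp v hv'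
    have hin : ∀ l ∈ M, l.1 ∈ C v → l ∉ ct := by
      intro l hl hlC
      have h1 : r l.1 l.2 := Finset.mem_union_right _ hl
      have h2 := step_of_rtg hfun hle hv ((memC _ _).mp hlC) h1
      exact (Finset.mem_sdiff.mp h2).2
    have e1 := Ceq v _ hv' g4
    have e2 := Ceq v _ hv' g5
    have n1 : ¬ second (p (C v)).1 := by
      intro h
      have h2 := h.2
      rw [e1] at h2
      exact g3 h2
    have n2 : second (p (C v)).2 := by
      refine ⟨cycC v _ hv' g5, ?_⟩
      rw [e2]
    have m1 := hin _ g1 g4
    have m2 := hin _ g2 g5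
    rw [hct, cut, Finset.mem_filter] at m1 m2
    simp only [if_neg n1, decide_eq_false n1, g1, true_and] at m1
    simp only [if_pos n2, decide_eq_true n2, g2, true_and, e2] at m2
    cases hω : ω (p (C v)).1 <;> simp [hω] at m1 m2

end Pool.Agent.LAP.H94
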